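import Pool.Agent.Q161.ESB.Stm4

set_option autoImplicit false

namespace Pool.Agent.Q26.ESB

open NumberField IsDedekindDomain Pool.Agent.Q161.ESB

theorem rmv : S_RMV := by
  intro F K _ _ _ _ _ v s c hc hs hv
  have hvm : v.asIdeal.IsMaximal := v.isMaximal
  obtain ⟨P, hPm, hPl⟩ := Ideal.exists_maximal_ideal_liesOver_of_isIntegral v.asIdeal (S := 𝓞 K)
  have hP0 : P ≠ ⊥ := by
    rintro rfl
    apply v.ne_bot
    rw [hPl.over]
    exact Ideal.under_bot _ _
  let w : HeightOneSpectrum (𝓞 K) := ⟨P, hPm.isPrime, hP0⟩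
  have : w.asIdeal.LiesOver v.asIdeal := hPl
  have h1 := HeightOneSpectrum.valuation_liesOver K v w c
  obtain ⟨k, hk⟩ := hv
  set e := v.asIdeal.ramificationIdx' w.asIdeal with he
  have he0 : e ≠ 0 := Ideal.IsDedekindDomain.ramificationIdx'_ne_zero_of_liesOver w.asIdeal v.ne_bot
  have s0 : s ≠ 0 := by
    rintro rfl
    apply hc
    have h2 : algebraMap F K c = 0 := by rw [← hs]; simp
    exact (FaithfulSMul.algebraMap_eq_zero_iff F K).1 h2
  have hs0 : w.valuation K s ≠ 0 := (Valuation.ne_zero_iff _).2 s0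
  obtain ⟨m, hm⟩ : ∃ m : ℤ, w.valuation K s = WithZero.exp m :=
    ⟨WithZero.log (w.valuation K s), (WithZero.exp_log hs0).symm⟩
  rw [hk, ← hs, map_pow, hm, ← WithZero.exp_nsmul, ← WithZero.exp_nsmul, WithZero.exp_inj] at h1
  simp only [nsmul_eq_mul] at h1
  have he2 : 2 ≤ e := by
    rcases Nat.lt_or_ge e 2 with h2 | h2
    · interval_cases e
      · exact absurd rfl he0
      · push_cast at h1
        omega
    · exact h2
  refine ⟨w, ?_⟩
  exact Ideal.le_pow_ramificationIdx'.trans (Ideal.pow_le_pow_right he2)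

end Pool.Agent.Q26.ESB
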